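import Pool.Agent.H37Z.InvNIP

set_option autoImplicit false

namespace Pool.Agent.Results.MP_f8e4dc_lc.ANipPositive

open Pool.Agent.H37Z.Inv

universe u v w

/-- In a monster model of an NIP theory, if the global invariant types `p₀`, `p₁` are both weakly
orthogonal to the global invariant type `q`, then so is `p₀ ⊗ p₁` (which exists and is unique). -/
theorem result (L : FirstOrder.Language.{u, v}) (U : Type w) [L.Structure U] (κ : Cardinal.{w})
    (hU : IsMonster L U κ) (hNIP : IsNIP L U) (α₀ α₁ β : Type) [Finite α₀] [Finite α₁] [Finite β]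
    (p₀ : GType L U α₀) (p₁ : GType L U α₁) (q : GType L U β)
    (h₀ : p₀.Invariant κ) (h₁ : p₁.Invariant κ) (hq : q.Invariant κ)
    (o₀ : WeaklyOrthogonal p₀ q) (o₁ : WeaklyOrthogonal p₁ q) :
    ∃ r : GType L U (α₀ ⊕ α₁), IsTensor κ p₀ p₁ r ∧ (∀ r', IsTensor κ p₀ p₁ r' → r' = r) ∧
      WeaklyOrthogonal r q := by
  obtain ⟨r, hr⟩ := hU.exists_tensor h₀ p₁
  exact ⟨r, hr, fun _ h => hU.tensor_unique h₀ hr h, nip_main hU hNIP h₀ h₁ hq o₀ o₁ hr⟩

end Pool.Agent.Results.MP_f8e4dc_lc.ANipPositive
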