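import Pool.Agent.H37Z.InvEx

set_option autoImplicit false

namespace Pool.Agent.Results.MP_f8e4dc_lc.BCounterexample

open Pool.Agent.H37Z.Inv Cardinal

universe u

/-- There is a finite language `L` and a monster model `U` (saturated and strongly homogeneous of
strongly inaccessible cardinality) with global `∅`-invariant `1`-types `p₀`, `p₁`, `q` such that
`p₀` and `p₁` are weakly orthogonal to `q` but `p₀ ⊗ p₁` is not. -/
theorem result : ∃ (L : FirstOrder.Language.{0, 0}) (U : Type (u + 1)) (_ : L.Structure U)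
    (κ : Cardinal.{u + 1}), Finite L.Symbols ∧ κ.IsInaccessible ∧ #U = κ ∧ IsMonster L U κ ∧
      ∃ p₀ p₁ q : GType L U (Fin 1), p₀.InvariantOver ∅ ∧ p₁.InvariantOver ∅ ∧
        q.InvariantOver ∅ ∧ WeaklyOrthogonal p₀ q ∧ WeaklyOrthogonal p₁ q ∧
        ∃ r : GType L U (Fin 1 ⊕ Fin 1), IsTensor κ p₀ p₁ r ∧
          (∀ r', IsTensor κ p₀ p₁ r' → r' = r) ∧ ¬ WeaklyOrthogonal r q := by
  obtain ⟨U, hS, h⟩ := Pool.Agent.H37Z.Gen.main (IsInaccessible.univ.{u, u + 1})
  exact ⟨Pool.Agent.H37Z.Gen.Lang, U, hS, _, inferInstance, IsInaccessible.univ.{u, u + 1}, h⟩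

end Pool.Agent.Results.MP_f8e4dc_lc.BCounterexample
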